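import Pool.Agent.Helper75.BX.Basic

/-! # Arches are unfolded to weak bridges; pairs of corner walks are glued to arches -/

open Filter Topology

namespace Pool.Agent.Helper75.BX

open Pool.HW (SAW C mu)

variable {d : ℕ}

/-- last position of the maximum of `f` on `0..n` -/
noncomputable def tau (n : ℕ) (f : ℕ → ℤ) : ℕ := by
  classical exact Nat.findGreatest (fun k => ∀ l ≤ n, f l ≤ f k) n

theorem tau_le (n : ℕ) (f : ℕ → ℤ) : tau n f ≤ n := by
  classical
  unfold tau
  exact Nat.findGreatest_le n

theorem le_tau (n : ℕ) (f : ℕ → ℤ) {l : ℕ} (hl : l ≤ n) : f l ≤ f (tau n f) := by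
  classical
  obtain ⟨k, hk, hk'⟩ := Finset.exists_max_image (Finset.range (n + 1)) f ⟨0, by simp⟩
  have hk1 : k ≤ n := by simpa [Nat.lt_succ_iff] using hk
  have := Nat.findGreatest_spec (P := fun k => ∀ l ≤ n, f l ≤ f k) hk1
    (fun l hl => hk' l (by simpa [Nat.lt_succ_iff] using hl))
  unfold tau
  convert this l hl

theorem lt_tau (n : ℕ) (f : ℕ → ℤ) {k : ℕ} (hk : k ≤ n) (h : tau n f < k) :
    f k < f (tau n f) := by
  classical
  have h1 : ¬ ∀ l ≤ n, f l ≤ f k := by
    refine Nat.findGreatest_is_greatest (P := fun k => ∀ l ≤ n, f l ≤ f k) (n := n) ?_ hk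
    unfold tau at h
    convert h
  push Not at h1
  obtain ⟨l, hl, hl'⟩ := h1
  exact hl'.trans_le (le_tau n f hl)

/-- reflection of coordinate `i` through the level `M` -/
def refl (i : Fin d) (M : ℤ) (v : Fin d → ℤ) : Fin d → ℤ :=
  fun j => if j = i then 2 * M - v j else v j

theorem refl_same (i : Fin d) (M : ℤ) (v : Fin d → ℤ) : refl i M v i = 2 * M - v i := by
  simp [refl]

theorem refl_ne {i j : Fin d} (h : j ≠ i) (M : ℤ) (v : Fin d → ℤ) : refl i M v j = v j := by
  simp [refl, h]

theorem refl_inj {i : Fin d} {M : ℤ} {v w : Fin d → ℤ} (h : refl i M v = refl i M w) : v = w := by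
  funext j
  have e := congrFun h j
  by_cases hj : j = i
  · subst hj
    rw [refl_same, refl_same] at e
    omega
  · rwa [refl_ne hj, refl_ne hj] at e

theorem refl_sq (i : Fin d) (M : ℤ) (v w : Fin d → ℤ) :
    ∑ j, (refl i M v j - refl i M w j) ^ 2 = ∑ j, (v j - w j) ^ 2 := by
  refine Finset.sum_congr rfl fun j _ => ?_
  by_cases hj : j = i
  · subst hj
    rw [refl_same, refl_same]
    ring
  · rw [refl_ne hj, refl_ne hj]

theorem refl_fix {i : Fin d} {M : ℤ} {v : Fin d → ℤ} (h : v i = M) : refl i M v = v := by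
  funext j
  by_cases hj : j = i
  · subst hj
    rw [refl_same]
    omega
  · rw [refl_ne hj]

/-- unfold after the last maximum -/
noncomputable def unf (i : Fin d) (n : ℕ) (f : ℕ → (Fin d → ℤ)) : ℕ → (Fin d → ℤ) :=
  fun k => if k ≤ tau n (fun k => f k i) then f k
    else refl i (f (tau n (fun k => f k i)) i) (f k)

theorem unf_left {i : Fin d} {n : ℕ} {f : ℕ → (Fin d → ℤ)} {k : ℕ}
    (h : k ≤ tau n (fun k => f k i)) : unf i n f k = f k := by
  unfold unf; rw [if_pos h]

theorem unf_right {i : Fin d} {n : ℕ} {f : ℕ → (Fin d → ℤ)} {k : ℕ}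
    (h : tau n (fun k => f k i) ≤ k) :
    unf i n f k = refl i (f (tau n (fun k => f k i)) i) (f k) := by
  unfold unf
  rcases h.lt_or_eq with h' | h'
  · rw [if_neg (by omega)]
  · subst h'
    rw [if_pos le_rfl, refl_fix rfl]

theorem unf_W {i : Fin d} {n : ℕ} {f : ℕ → (Fin d → ℤ)} (h : W d n f) : W d n (unf i n f) := by
  obtain ⟨h0, h1, h2⟩ := h
  set t := tau n (fun k => f k i) with ht
  set M := f t i with hM
  have hmax : ∀ l ≤ n, f l i ≤ M := fun l hl => le_tau n (fun k => f k i) hl
  have hlt : ∀ k ≤ n, t < k → f k i < M := fun k hk hk' => lt_tau n (fun k => f k i) hk hk'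
  refine ⟨?_, ?_, ?_⟩
  · rw [unf_left (Nat.zero_le _)]; exact h0
  · intro k hk
    rcases Nat.lt_or_ge k t with hkt | hkt
    · rw [unf_left hkt, unf_left (by omega)]; exact h1 k hk
    · rw [unf_right hkt, unf_right (by omega), refl_sq]; exact h1 k hk
  · have sep : ∀ a ≤ n, ∀ b ≤ n, a ≤ t → t < b → unf i n f a ≠ unf i n f b := by
      intro a ha b hb hat hbt hab
      rw [unf_left hat, unf_right hbt.le] at hab
      have e := congrFun hab i
      rw [refl_same] at e
      have e1 := hmax a ha
      have e2 := hlt b hb hbt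
      rw [← ht, ← hM] at e
      omega
    intro a ha b hb hab
    rcases Nat.lt_or_ge t a with hat | hat
    · rcases Nat.lt_or_ge t b with hbt | hbt
      · rw [unf_right hat.le, unf_right hbt.le] at hab
        exact h2 a ha b hb (refl_inj hab)
      · exact absurd hab.symm (sep b hb a ha hbt hat)
    · rcases Nat.lt_or_ge t b with hbt | hbt
      · exact absurd hab (sep a ha b hb hat hbt)
      · rw [unf_left hat, unf_left hbt] at hab
        exact h2 a ha b hb hab

theorem AR_le_WB (i : Fin d) (n : ℕ) : (AR d i n).ncard ≤ (WB d i n).ncard := by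
  refine Set.ncard_le_ncard_of_injOn (fun ω => toF n (unf i n (toN ω))) ?_ ?_ (WB_finite i n)
  · rintro ω ⟨h1, h2, h3⟩
    refine ⟨SAW_toF (unf_W (W_toN h1)), ?_⟩
    intro k hk
    rw [toN_toF hk, toN_toF le_rfl, unf_right (tau_le n _), refl_same]
    have hmax : ∀ l ≤ n, toN ω l i ≤ toN ω (tau n (fun k => toN ω k i)) i :=
      fun l hl => le_tau n (fun k => toN ω k i) hl
    have e3 := h3 k hk
    have e4 := hmax k hk
    rcases le_total k (tau n (fun k => toN ω k i)) with h | h
    · rw [unf_left h]; omega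
    · rw [unf_right h, refl_same]; omega
  · rintro ω ⟨h1, h2, h3⟩ ω' ⟨h1', h2', h3'⟩ hE
    have hE' : ∀ k ≤ n, unf i n (toN ω) k = unf i n (toN ω') k := by
      intro k hk
      exact congrFun hE ⟨k, by omega⟩
    set t := tau n (fun k => toN ω k i) with ht
    set t' := tau n (fun k => toN ω' k i) with ht'
    have hmax : ∀ l ≤ n, toN ω l i ≤ toN ω t i := fun l hl => le_tau n (fun k => toN ω k i) hl
    have hmax' : ∀ l ≤ n, toN ω' l i ≤ toN ω' t' i :=
      fun l hl => le_tau n (fun k => toN ω' k i) hl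
    have hlt : ∀ k ≤ n, t < k → toN ω k i < toN ω t i :=
      fun k hk hk' => lt_tau n (fun k => toN ω k i) hk hk'
    have hlt' : ∀ k ≤ n, t' < k → toN ω' k i < toN ω' t' i :=
      fun k hk hk' => lt_tau n (fun k => toN ω' k i) hk hk'
    have htn : t ≤ n := tau_le n _
    have htn' : t' ≤ n := tau_le n _
    have hL : ∀ k, k ≤ t → unf i n (toN ω) k = toN ω k := fun k h => unf_left h
    have hL' : ∀ k, k ≤ t' → unf i n (toN ω') k = toN ω' k := fun k h => unf_left h
    have hR : ∀ k, t ≤ k → unf i n (toN ω) k = refl i (toN ω t i) (toN ω k) :=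
      fun k h => unf_right h
    have hR' : ∀ k, t' ≤ k → unf i n (toN ω') k = refl i (toN ω' t' i) (toN ω' k) :=
      fun k h => unf_right h
    -- equality of the maxima
    have hM : toN ω t i = toN ω' t' i := by
      have e := congrFun (hE' n le_rfl) i
      rw [hR n htn, hR' n htn', refl_same, refl_same, h2, h2'] at e
      omega
    -- equality of the last positions
    have htt : t = t' := by
      rcases lt_trichotomy t t' with h | h | h
      · exfalso
        have e := congrFun (hE' t' htn') i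
        rw [hR t' h.le, hL' t' le_rfl, refl_same] at e
        have := hlt t' htn' h
        omega
      · exact h
      · exfalso
        have e := congrFun (hE' t htn) i
        rw [hL t le_rfl, hR' t h.le, refl_same] at e
        have := hlt' t htn h
        omega
    refine toN_ext fun k hk => ?_
    have e := hE' k hk
    rcases le_total k t with h | h
    · rwa [hL k h, hL' k (by omega)] at e
    · rw [hR k h, hR' k (by omega), hM] at e
      exact refl_inj e

/-- the pairs of corner walks with the same `i`-displacement -/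
def PA (d : ℕ) (i j : Fin d) (n : ℕ) :
    Set ((Fin (n + 1) → (Fin d → ℤ)) × (Fin (n + 1) → (Fin d → ℤ))) :=
  {p | p.1 ∈ CO d i j n ∧ p.2 ∈ CO d i j n ∧ toN p.1 n i = toN p.2 n i}

/-- the second piece of the glued arch -/
def sec (j : Fin d) (n : ℕ) (u : Fin d → ℤ) (f : ℕ → (Fin d → ℤ)) : ℕ → (Fin d → ℤ) :=
  fun k => u + ee j + refl j 0 (f (n - k) - f n)

theorem PA_le_AR {i j : Fin d} (hij : i ≠ j) (n : ℕ) :
    (PA d i j n).ncard ≤ (AR d i (n + n + 1)).ncard := by
  have hji : i ≠ j := hij
  have key : ∀ p ∈ PA d i j n,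
      W d (n + n + 1) (glue n (toN p.1) (sec j n (toN p.1 n) (toN p.2))) := by
    rintro ⟨ω, ω'⟩ ⟨⟨h1, h2, h3⟩, ⟨h4, h5, h6⟩, h7⟩
    simp only at h1 h2 h3 h4 h5 h6 h7 ⊢
    have hW' := W_toN h4
    refine glue_W (W_toN h1) ?_ ?_ ?_ ?_
    · intro k hk
      have e1 : ∀ x, sec j n (toN ω n) (toN ω') (k + 1) x - sec j n (toN ω n) (toN ω') k x
          = refl j 0 (toN ω' (n - (k + 1)) - toN ω' n) x - refl j 0 (toN ω' (n - k) - toN ω' n) x := by
        intro x
        simp only [sec, Pi.add_apply]
        ring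
      simp only [e1]
      rw [refl_sq]
      have e2 := hW'.2.1 (n - (k + 1)) (by omega)
      rw [show n - (k + 1) + 1 = n - k by omega] at e2
      rw [← e2]
      refine Finset.sum_congr rfl fun x _ => ?_
      simp only [Pi.sub_apply]
      ring
    · intro a ha b hb hab
      simp only [sec] at hab
      have e1 := refl_inj (add_left_cancel hab)
      have e2 := hW'.2.2 (n - a) (by omega) (n - b) (by omega) (sub_left_injective e1)
      omega
    · have e1 : ∀ x, sec j n (toN ω n) (toN ω') 0 x - toN ω n x = ee j x := by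
        intro x
        simp only [sec, Pi.add_apply, Nat.sub_zero, sub_self]
        have : refl j 0 (0 : Fin d → ℤ) x = 0 := by
          unfold refl
          split_ifs <;> simp
        rw [this]
        ring
      simp only [e1]
      exact sum_ee j
    · intro a ha b hb hab
      have e := congrFun hab j
      have e1 := h3 a ha
      have e2 := h6 (n - b) (by omega)
      simp only [sec, Pi.add_apply, ee, Pi.single_eq_same, refl_same, Pi.sub_apply] at e
      omega
  refine Set.ncard_le_ncard_of_injOn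
    (fun p => toF (n + n + 1) (glue n (toN p.1) (sec j n (toN p.1 n) (toN p.2)))) ?_ ?_
    (AR_finite i _)
  · intro p hp
    refine ⟨SAW_toF (key p hp), ?_⟩
    obtain ⟨ω, ω'⟩ := p
    obtain ⟨⟨h1, h2, h3⟩, ⟨h4, h5, h6⟩, h7⟩ := hp
    simp only at h1 h2 h3 h4 h5 h6 h7 ⊢
    have hi : ∀ k, sec j n (toN ω n) (toN ω') k i = toN ω' (n - k) i := by
      intro k
      simp only [sec, Pi.add_apply, ee, Pi.single_eq_of_ne hji, refl_ne hji, Pi.sub_apply]
      omega
    constructor
    · rw [toN_toF le_rfl, show n + n + 1 = n + 1 + n by omega, glue_right, hi, Nat.sub_self,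
        (W_toN h4).1]
      rfl
    · intro k hk
      rw [toN_toF hk]
      rcases Nat.lt_or_ge n k with h | h
      · obtain ⟨l, rfl⟩ : ∃ l, k = n + 1 + l := ⟨k - (n + 1), by omega⟩
        rw [glue_right, hi]
        exact h5 _ (by omega)
      · rw [glue_left h]
        exact h2 k h
  · rintro ⟨ω₁, ω₂⟩ ⟨⟨h1, h2, h3⟩, ⟨h4, h5, h6⟩, h7⟩ ⟨ω₁', ω₂'⟩
      ⟨⟨h1', h2', h3'⟩, ⟨h4', h5', h6'⟩, h7'⟩ hE
    simp only at h1 h2 h3 h4 h5 h6 h7 h1' h2' h3' h4' h5' h6' h7' hE
    have hE' : ∀ k ≤ n + n + 1, glue n (toN ω₁) (sec j n (toN ω₁ n) (toN ω₂)) k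
        = glue n (toN ω₁') (sec j n (toN ω₁' n) (toN ω₂')) k := by
      intro k hk
      exact congrFun hE ⟨k, by omega⟩
    have e1 : ω₁ = ω₁' := by
      refine toN_ext fun k hk => ?_
      have := hE' k (by omega)
      rwa [glue_left hk, glue_left hk] at this
    subst e1
    have e2 : ∀ k ≤ n, toN ω₂ (n - k) - toN ω₂ n = toN ω₂' (n - k) - toN ω₂' n := by
      intro k hk
      have := hE' (n + 1 + k) (by omega)
      rw [glue_right, glue_right] at this
      exact refl_inj (add_left_cancel this)
    have e3 : toN ω₂ n = toN ω₂' n := by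
      have := e2 n le_rfl
      rw [Nat.sub_self, (W_toN h4).1, (W_toN h4').1, zero_sub, zero_sub] at this
      exact neg_injective this
    have e4 : ω₂ = ω₂' := by
      refine toN_ext fun k hk => ?_
      have := e2 (n - k) (by omega)
      rw [show n - (n - k) = k by omega, e3] at this
      exact sub_left_injective this
    rw [e4]

theorem CO_sq (i j : Fin d) (n : ℕ) :
    (CO d i j n).ncard ^ 2 ≤ (n + 1) * (PA d i j n).ncard := by
  classical
  set S : Finset (Fin (n + 1) → (Fin d → ℤ)) := (CO_finite i j n).toFinset with hS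
  have hmem : ∀ ω, ω ∈ S ↔ ω ∈ CO d i j n := fun ω => by rw [hS]; simp
  set φ : (Fin (n + 1) → (Fin d → ℤ)) → ℕ := fun ω => (toN ω n i).toNat with hφ
  have hφle : ∀ ω ∈ S, φ ω ∈ Finset.range (n + 1) := by
    intro ω hω
    have h1 := ((hmem ω).1 hω).1
    have h2 := Pool.HW.SAW_bound h1 (Fin.last n) i
    rw [Finset.mem_range]
    simp only [hφ]
    rw [toN_of_le ω le_rfl]
    have h3 : ω ⟨n, by omega⟩ i ≤ n := by
      have := (abs_le.1 h2).2
      simpa [Fin.last] using this
    omega
  have hcard : (CO d i j n).ncard = S.card := by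
    rw [Set.ncard_eq_toFinset_card _ (CO_finite i j n)]
  have hfib : S.card = ∑ a ∈ Finset.range (n + 1), (S.filter fun ω => φ ω = a).card :=
    Finset.card_eq_sum_card_fiberwise hφle
  have hpa : ∑ a ∈ Finset.range (n + 1), (S.filter fun ω => φ ω = a).card ^ 2
      ≤ (PA d i j n).ncard := by
    have hfin : (PA d i j n).Finite :=
      ((CO_finite i j n).prod (CO_finite i j n)).subset fun p hp => ⟨hp.1, hp.2.1⟩
    rw [Set.ncard_eq_toFinset_card _ hfin]
    have : ∑ a ∈ Finset.range (n + 1), (S.filter fun ω => φ ω = a).card ^ 2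
        = ((Finset.range (n + 1)).biUnion fun a =>
          (S.filter fun ω => φ ω = a) ×ˢ (S.filter fun ω => φ ω = a)).card := by
      rw [Finset.card_biUnion]
      · refine Finset.sum_congr rfl fun a _ => ?_
        rw [Finset.card_product, sq]
      · intro a _ b _ hab
        rw [Function.onFun, Finset.disjoint_left]
        rintro ⟨x, y⟩ hx hy
        simp only [Finset.mem_product, Finset.mem_filter] at hx hy
        exact hab (hx.1.2.symm.trans hy.1.2)
    rw [this]
    refine Finset.card_le_card ?_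
    rintro ⟨x, y⟩ hxy
    simp only [Finset.mem_biUnion, Finset.mem_product, Finset.mem_filter] at hxy
    obtain ⟨a, _, ⟨hx, hxa⟩, ⟨hy, hya⟩⟩ := hxy
    rw [Set.Finite.mem_toFinset]
    have hx' := (hmem x).1 hx
    have hy' := (hmem y).1 hy
    refine ⟨hx', hy', ?_⟩
    have h1 := hx'.2.1 n le_rfl
    have h2 := hy'.2.1 n le_rfl
    have h3 : φ x = φ y := hxa.trans hya.symm
    simp only [hφ] at h3
    simp only
    omega
  rw [hcard, hfib]
  refine (sq_sum_le_card_mul_sum_sq (s := Finset.range (n + 1))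
    (f := fun a => (S.filter fun ω => φ ω = a).card)).trans ?_
  rw [Finset.card_range]
  exact Nat.mul_le_mul_left _ hpa

end Pool.Agent.Helper75.BX
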