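import Pool.Agent.Helper72.HW.Base

/-! # Walks as functions on `ℕ`, gluing, weak bridges -/

open Filter Topology

namespace Pool.Agent.Helper75.BX

open Pool.HW (SAW C mu)

variable {d : ℕ}

/-- a walk with `n` steps from the origin, as a function on `ℕ` (only `0..n` matters) -/
def W (d n : ℕ) (f : ℕ → (Fin d → ℤ)) : Prop :=
  f 0 = 0 ∧ (∀ k < n, ∑ j, (f (k + 1) j - f k j) ^ 2 = 1) ∧
    ∀ a ≤ n, ∀ b ≤ n, f a = f b → a = b

def toN {n : ℕ} (ω : Fin (n + 1) → (Fin d → ℤ)) : ℕ → (Fin d → ℤ) :=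
  fun k => if h : k < n + 1 then ω ⟨k, h⟩ else 0

def toF (n : ℕ) (f : ℕ → (Fin d → ℤ)) : Fin (n + 1) → (Fin d → ℤ) := fun k => f k

theorem toN_apply {n : ℕ} (ω : Fin (n + 1) → (Fin d → ℤ)) (k : Fin (n + 1)) :
    toN ω k = ω k := by
  unfold toN
  rw [dif_pos k.2]

theorem toN_of_le {n : ℕ} (ω : Fin (n + 1) → (Fin d → ℤ)) {k : ℕ} (h : k ≤ n) :
    toN ω k = ω ⟨k, by omega⟩ := by
  unfold toN
  rw [dif_pos (by omega)]

theorem toF_toN {n : ℕ} (ω : Fin (n + 1) → (Fin d → ℤ)) : toF n (toN ω) = ω := by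
  funext k
  exact toN_apply ω k

theorem toN_ext {n : ℕ} {ω ω' : Fin (n + 1) → (Fin d → ℤ)}
    (h : ∀ k ≤ n, toN ω k = toN ω' k) : ω = ω' := by
  funext k
  have h1 := h k (by have := k.2; omega)
  rwa [toN_apply, toN_apply] at h1

theorem W_toN {n : ℕ} {ω : Fin (n + 1) → (Fin d → ℤ)} (h : ω ∈ SAW d n) : W d n (toN ω) := by
  obtain ⟨h0, h1, h2⟩ := h
  refine ⟨?_, ?_, ?_⟩
  · rw [toN_of_le ω (Nat.zero_le n)]; exact h0
  · intro k hk
    rw [toN_of_le ω (show k + 1 ≤ n from hk), toN_of_le ω hk.le]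
    exact h1 ⟨k, hk⟩
  · intro a ha b hb hab
    rw [toN_of_le ω ha, toN_of_le ω hb] at hab
    exact congrArg Fin.val (h2 hab)

theorem SAW_toF {n : ℕ} {f : ℕ → (Fin d → ℤ)} (h : W d n f) : toF n f ∈ SAW d n := by
  obtain ⟨h0, h1, h2⟩ := h
  refine ⟨h0, fun i => h1 i i.2, fun a b hab => Fin.ext ?_⟩
  exact h2 a (by have := a.2; omega) b (by have := b.2; omega) hab

/-- glue two pieces -/
def glue (m : ℕ) (f g : ℕ → (Fin d → ℤ)) : ℕ → (Fin d → ℤ) :=
  fun k => if k ≤ m then f k else g (k - (m + 1))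

theorem glue_left {m k : ℕ} {f g : ℕ → (Fin d → ℤ)} (h : k ≤ m) : glue m f g k = f k := by
  unfold glue; rw [if_pos h]

theorem glue_right {m k : ℕ} {f g : ℕ → (Fin d → ℤ)} : glue m f g (m + 1 + k) = g k := by
  unfold glue
  rw [if_neg (by omega)]
  congr 1
  omega

theorem glue_W {m n : ℕ} {f g : ℕ → (Fin d → ℤ)} (hf : W d m f)
    (hg1 : ∀ k < n, ∑ j, (g (k + 1) j - g k j) ^ 2 = 1)
    (hg2 : ∀ a ≤ n, ∀ b ≤ n, g a = g b → a = b)
    (hfg : ∑ j, (g 0 j - f m j) ^ 2 = 1)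
    (hd : ∀ a ≤ m, ∀ b ≤ n, f a ≠ g b) : W d (m + n + 1) (glue m f g) := by
  obtain ⟨h0, h1, h2⟩ := hf
  refine ⟨?_, ?_, ?_⟩
  · rw [glue_left (Nat.zero_le m)]; exact h0
  · intro k hk
    rcases lt_trichotomy k m with h | h | h
    · rw [glue_left (by omega), glue_left h.le]; exact h1 k h
    · subst h
      rw [glue_left le_rfl, show k + 1 = k + 1 + 0 by omega, glue_right]; exact hfg
    · obtain ⟨l, rfl⟩ : ∃ l, k = m + 1 + l := ⟨k - (m + 1), by omega⟩
      rw [glue_right, show m + 1 + l + 1 = m + 1 + (l + 1) by omega, glue_right]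
      exact hg1 l (by omega)
  · intro a ha b hb hab
    rcases Nat.lt_or_ge m a with h | h
    · obtain ⟨a', rfl⟩ : ∃ l, a = m + 1 + l := ⟨a - (m + 1), by omega⟩
      rw [glue_right] at hab
      rcases Nat.lt_or_ge m b with h' | h'
      · obtain ⟨b', rfl⟩ : ∃ l, b = m + 1 + l := ⟨b - (m + 1), by omega⟩
        rw [glue_right] at hab
        rw [hg2 a' (by omega) b' (by omega) hab]
      · rw [glue_left h'] at hab
        exact absurd hab.symm (hd b h' a' (by omega))
    · rw [glue_left h] at hab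
      rcases Nat.lt_or_ge m b with h' | h'
      · obtain ⟨b', rfl⟩ : ∃ l, b = m + 1 + l := ⟨b - (m + 1), by omega⟩
        rw [glue_right] at hab
        exact absurd hab (hd a h b' (by omega))
      · rw [glue_left h'] at hab
        exact h2 a h b h' hab

/-- the unit vector -/
def ee (i : Fin d) : Fin d → ℤ := Pi.single i 1

theorem sum_ee (i : Fin d) : ∑ j, (ee i j) ^ 2 = 1 := by
  rw [Finset.sum_eq_single i]
  · simp [ee]
  · intro b _ hb; simp [ee, hb]
  · intro h; exact absurd (Finset.mem_univ i) h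

/-- weak bridges in coordinate `i` -/
def WB (d : ℕ) (i : Fin d) (n : ℕ) : Set (Fin (n + 1) → (Fin d → ℤ)) :=
  {ω | ω ∈ SAW d n ∧ ∀ k ≤ n, 0 ≤ toN ω k i ∧ toN ω k i ≤ toN ω n i}

/-- arches in coordinate `i`: both ends at the lowest level -/
def AR (d : ℕ) (i : Fin d) (n : ℕ) : Set (Fin (n + 1) → (Fin d → ℤ)) :=
  {ω | ω ∈ SAW d n ∧ toN ω n i = 0 ∧ ∀ k ≤ n, 0 ≤ toN ω k i}

/-- corner walks: start at the lowest `i`-level, end at the highest `j`-level -/
def CO (d : ℕ) (i j : Fin d) (n : ℕ) : Set (Fin (n + 1) → (Fin d → ℤ)) :=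
  {ω | ω ∈ SAW d n ∧ (∀ k ≤ n, 0 ≤ toN ω k i) ∧ ∀ k ≤ n, toN ω k j ≤ toN ω n j}

theorem WB_finite (i : Fin d) (n : ℕ) : (WB d i n).Finite :=
  (Pool.HW.SAW_finite d n).subset fun _ h => h.1
theorem AR_finite (i : Fin d) (n : ℕ) : (AR d i n).Finite :=
  (Pool.HW.SAW_finite d n).subset fun _ h => h.1
theorem CO_finite (i j : Fin d) (n : ℕ) : (CO d i j n).Finite :=
  (Pool.HW.SAW_finite d n).subset fun _ h => h.1

theorem toN_toF {n : ℕ} {f : ℕ → (Fin d → ℤ)} {k : ℕ} (h : k ≤ n) : toN (toF n f) k = f k := by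
  rw [toN_of_le _ h]; rfl

theorem WB_mul (i : Fin d) (m n : ℕ) :
    (WB d i m).ncard * (WB d i n).ncard ≤ (WB d i (m + n + 1)).ncard := by
  rw [← Set.ncard_prod]
  let g : ((Fin (m + 1) → (Fin d → ℤ)) × (Fin (n + 1) → (Fin d → ℤ))) → ℕ → (Fin d → ℤ) :=
    fun p k => toN p.1 m + ee i + toN p.2 k
  have key : ∀ p : (Fin (m + 1) → (Fin d → ℤ)) × (Fin (n + 1) → (Fin d → ℤ)),
      p ∈ WB d i m ×ˢ WB d i n → W d (m + n + 1) (glue m (toN p.1) (g p)) := by
    rintro ⟨ω, ω'⟩ ⟨⟨h1, h2⟩, ⟨h3, h4⟩⟩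
    have hW' := W_toN h3
    refine glue_W (W_toN h1) ?_ ?_ ?_ ?_
    · intro k hk
      have := hW'.2.1 k hk
      simpa [g] using this
    · intro a ha b hb hab
      refine hW'.2.2 a ha b hb ?_
      exact add_left_cancel hab
    · have h0 : toN ω' 0 = 0 := hW'.1
      simp only [g, h0]
      simpa using sum_ee i
    · intro a ha b hb hab
      have e := congrFun hab i
      have e1 := (h2 a ha).2
      have e2 := (h4 b hb).1
      simp only [g, Pi.add_apply, ee, Pi.single_eq_same] at e e1 e2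
      omega
  refine Set.ncard_le_ncard_of_injOn (fun p => toF (m + n + 1) (glue m (toN p.1) (g p))) ?_ ?_
    (WB_finite i _)
  · intro p hp
    refine ⟨SAW_toF (key p hp), ?_⟩
    obtain ⟨ω, ω'⟩ := p
    obtain ⟨⟨h1, h2⟩, ⟨h3, h4⟩⟩ := hp
    have hlast : toN (toF (m + n + 1) (glue m (toN ω) (g (ω, ω')))) (m + n + 1) i
        = toN ω m i + 1 + toN ω' n i := by
      rw [toN_toF le_rfl, show m + n + 1 = m + 1 + n by omega, glue_right]
      simp [g, ee]
    intro k hk
    simp only at hlast ⊢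
    rw [hlast, toN_toF hk]
    have e1 := h2 m le_rfl
    have e2 := h4 n le_rfl
    simp only at e1 e2
    rcases Nat.lt_or_ge m k with h | h
    · obtain ⟨l, rfl⟩ : ∃ l, k = m + 1 + l := ⟨k - (m + 1), by omega⟩
      rw [glue_right]
      have e3 := h4 l (by omega)
      simp only [g, Pi.add_apply, ee, Pi.single_eq_same] at e3 ⊢
      omega
    · rw [glue_left h]
      have e3 := h2 k h
      simp only at e3 ⊢
      omega
  · rintro ⟨ω₁, ω₂⟩ hp ⟨ω₁', ω₂'⟩ hp' hE
    have hE' : ∀ k ≤ m + n + 1, glue m (toN ω₁) (g (ω₁, ω₂)) k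
        = glue m (toN ω₁') (g (ω₁', ω₂')) k := by
      intro k hk
      have := congrFun hE ⟨k, by omega⟩
      exact this
    have e1 : ω₁ = ω₁' := by
      refine toN_ext fun k hk => ?_
      have := hE' k (by omega)
      rwa [glue_left hk, glue_left hk] at this
    subst e1
    have e2 : ω₂ = ω₂' := by
      refine toN_ext fun k hk => ?_
      have := hE' (m + 1 + k) (by omega)
      rw [glue_right, glue_right] at this
      exact add_left_cancel this
    rw [e2]

theorem WB_pow (i : Fin d) (n k : ℕ) :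
    (WB d i n).ncard ^ (k + 1) ≤ (WB d i (k * (n + 1) + n)).ncard := by
  induction k with
  | zero =>
    have h0 : 0 * (n + 1) + n = n := by omega
    rw [h0, zero_add, pow_one]
  | succ k ih =>
    rw [pow_succ]
    refine (Nat.mul_le_mul_right _ ih).trans ?_
    have h1 : k * (n + 1) + n + n + 1 = (k + 1) * (n + 1) + n := by ring
    have h2 := WB_mul i (k * (n + 1) + n) n
    rwa [h1] at h2

theorem WB_le (hd : 1 ≤ d) (i : Fin d) (n : ℕ) :
    ((WB d i n).ncard : ℝ) ≤ mu d ^ (n + 1) := by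
  set a : ℝ := ((WB d i n).ncard : ℝ) with ha
  have ha0 : 0 ≤ a := Nat.cast_nonneg _
  have h1 : ∀ k : ℕ, a ^ (k + 1) ≤ (C d (k * (n + 1) + n) : ℝ) := by
    intro k
    have h := (WB_pow i n k).trans
      (Set.ncard_le_ncard (fun ω (h : ω ∈ WB d i _) => h.1) (Pool.HW.SAW_finite d _))
    rw [ha]
    exact_mod_cast h
  rcases Nat.eq_zero_or_pos n with hn | hn
  · subst hn
    by_contra hcon
    push Not at hcon
    have hmu := Pool.HW.mu_pos d hd
    -- use `k`-th powers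
    have ht := (Pool.HW.tendsto_root d hd)
    have h2 : ∀ k : ℕ, 1 ≤ k → a ≤ (C d k : ℝ) ^ ((1 : ℝ) / (k : ℝ)) := by
      intro k hk
      have h3 := h1 (k)
      simp only [zero_add, mul_one, add_zero] at h3
      have h4 : a ^ k ≤ (C d k : ℝ) := by
        rcases le_or_gt 1 a with h | h
        · exact (pow_le_pow_right₀ h (Nat.le_succ k)).trans h3
        · refine (pow_le_one₀ ha0 h.le).trans ?_
          exact_mod_cast Pool.HW.C_pos d k hd
      have h5 : a = (a ^ k) ^ ((1 : ℝ) / (k : ℝ)) := by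
        rw [one_div, Real.pow_rpow_inv_natCast ha0 (by omega)]
      rw [h5]
      exact Real.rpow_le_rpow (pow_nonneg ha0 k) h4 (by positivity)
    have h6 : a ≤ mu d := ge_of_tendsto ht (by
      filter_upwards [eventually_ge_atTop 1] with k hk using h2 k hk)
    simp only [zero_add, pow_one] at hcon
    linarith
  · have hmu := Pool.HW.mu_pos d hd
    have ht := (Pool.HW.tendsto_root d hd)
    have hN : Tendsto (fun k : ℕ => k * (n + 1) + n) atTop atTop := by
      refine tendsto_atTop_mono (fun k => ?_) tendsto_id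
      simp only [id]
      nlinarith
    have ht' := ht.comp hN
    -- a^{(k+1)/(k(n+1)+n)} ≤ ...
    rcases le_or_gt a 1 with hle | hgt
    · have : (1 : ℝ) ≤ mu d := by
        refine ge_of_tendsto ht ?_
        filter_upwards [eventually_ge_atTop 1] with k hk
        exact Real.one_le_rpow (by exact_mod_cast Pool.HW.C_pos d k hd) (by positivity)
      exact hle.trans (one_le_pow₀ this)
    · have h2 : ∀ k : ℕ, a ^ ((1 : ℝ) / ((n : ℝ) + 1)) ≤
          (C d (k * (n + 1) + n) : ℝ) ^ ((1 : ℝ) / ((k * (n + 1) + n : ℕ) : ℝ)) := by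
        intro k
        have h5 : a ^ ((1 : ℝ) / ((n : ℝ) + 1)) ≤
            (a ^ (k + 1)) ^ ((1 : ℝ) / ((k * (n + 1) + n : ℕ) : ℝ)) := by
          rw [← Real.rpow_natCast a (k + 1), ← Real.rpow_mul ha0]
          refine Real.rpow_le_rpow_of_exponent_le hgt.le ?_
          push_cast
          have hn' : (0 : ℝ) < (n : ℝ) := by exact_mod_cast hn
          rw [mul_one_div, div_le_div_iff₀ (by positivity) (by positivity)]
          have hk : (0 : ℝ) ≤ k := Nat.cast_nonneg k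
          nlinarith
        exact h5.trans (Real.rpow_le_rpow (pow_nonneg ha0 _) (h1 k) (by positivity))
      have h6 : a ^ ((1 : ℝ) / ((n : ℝ) + 1)) ≤ mu d := ge_of_tendsto ht'
        (Eventually.of_forall h2)
      have h7 : a = (a ^ ((1 : ℝ) / ((n : ℝ) + 1))) ^ (n + 1) := by
        rw [← Real.rpow_natCast, ← Real.rpow_mul ha0]
        push_cast
        rw [one_div, inv_mul_cancel₀ (by positivity), Real.rpow_one]
      rw [h7]
      exact pow_le_pow_left₀ (Real.rpow_nonneg ha0 _) h6 _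

end Pool.Agent.Helper75.BX
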