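import Pool.Agent.Helper75.BX.Arch

/-! # Self-avoiding walks with both end points on the boundary of their bounding box -/

open Filter Topology

namespace Pool.Agent.Helper75.BX

open Pool.HW (SAW C mu)

variable {d : ℕ}

theorem one_le_mu (hd : 1 ≤ d) : (1 : ℝ) ≤ mu d := by
  refine ge_of_tendsto (Pool.HW.tendsto_root d hd) ?_
  filter_upwards [eventually_ge_atTop 1] with k hk
  exact Real.one_le_rpow (by exact_mod_cast Pool.HW.C_pos d k hd) (by positivity)

/-- the common bound -/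
noncomputable def bd (d n : ℕ) : ℝ := Real.sqrt ((n : ℝ) + 1) * mu d ^ (n + 1)

theorem one_le_sqrt (n : ℕ) : (1 : ℝ) ≤ Real.sqrt ((n : ℝ) + 1) := by
  rw [Real.one_le_sqrt]
  have : (0 : ℝ) ≤ n := Nat.cast_nonneg n
  linarith

theorem WB_bd (hd : 1 ≤ d) (i : Fin d) (n : ℕ) : ((WB d i n).ncard : ℝ) ≤ bd d n := by
  refine (WB_le hd i n).trans ?_
  unfold bd
  exact le_mul_of_one_le_left (pow_nonneg (Pool.HW.mu_pos d hd).le _) (one_le_sqrt n)

theorem AR_bd (hd : 1 ≤ d) (i : Fin d) (n : ℕ) : ((AR d i n).ncard : ℝ) ≤ bd d n := by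
  refine le_trans ?_ (WB_bd hd i n)
  exact_mod_cast AR_le_WB i n

theorem CO_bd (hd : 1 ≤ d) {i j : Fin d} (hij : i ≠ j) (n : ℕ) :
    ((CO d i j n).ncard : ℝ) ≤ bd d n := by
  have h1 : ((CO d i j n).ncard : ℝ) ^ 2 ≤ ((n : ℝ) + 1) * ((PA d i j n).ncard : ℝ) := by
    exact_mod_cast CO_sq i j n
  have h2 : ((PA d i j n).ncard : ℝ) ≤ mu d ^ (n + n + 1 + 1) := by
    refine le_trans ?_ (WB_le hd i (n + n + 1))
    exact_mod_cast (PA_le_AR hij n).trans (AR_le_WB i _)
  have h3 : ((CO d i j n).ncard : ℝ) ^ 2 ≤ bd d n ^ 2 := by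
    unfold bd
    rw [mul_pow, Real.sq_sqrt (by positivity), ← pow_mul]
    refine h1.trans (mul_le_mul_of_nonneg_left ?_ (by positivity))
    refine h2.trans (le_of_eq ?_)
    congr 1
    ring
  refine le_of_sq_le_sq h3 ?_
  unfold bd
  have := Pool.HW.mu_pos d hd
  positivity

/-- change the signs of coordinates -/
def flip (σ : Fin d → ℤ) {n : ℕ} (ω : Fin (n + 1) → (Fin d → ℤ)) : Fin (n + 1) → (Fin d → ℤ) :=
  fun k j => σ j * ω k j

theorem flip_inj {σ : Fin d → ℤ} (hσ : ∀ j, σ j ^ 2 = 1) {n : ℕ} :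
    Function.Injective (flip σ (n := n)) := by
  intro ω ω' h
  funext k j
  have e : σ j * ω k j = σ j * ω' k j := congrFun (congrFun h k) j
  have h0 : σ j ≠ 0 := fun h0 => by have := hσ j; rw [h0] at this; norm_num at this
  exact mul_left_cancel₀ h0 e

theorem flip_SAW {σ : Fin d → ℤ} (hσ : ∀ j, σ j ^ 2 = 1) {n : ℕ}
    {ω : Fin (n + 1) → (Fin d → ℤ)} (h : ω ∈ SAW d n) : flip σ ω ∈ SAW d n := by
  obtain ⟨h0, h1, h2⟩ := h
  have hne : ∀ j, σ j ≠ 0 := fun j h0 => by have := hσ j; rw [h0] at this; norm_num at this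
  refine ⟨?_, ?_, ?_⟩
  · funext j
    simp [flip, h0]
  · intro i
    rw [← h1 i]
    refine Finset.sum_congr rfl fun j _ => ?_
    simp only [flip]
    rw [← mul_sub, mul_pow, hσ j, one_mul]
  · intro a b hab
    refine h2 (funext fun j => ?_)
    exact mul_left_cancel₀ (hne j) (congrFun hab j)

/-- start extremal in coordinate `i` with sign `s`, end extremal in coordinate `j` with sign `s'` -/
def TT (d n : ℕ) (i : Fin d) (s : ℤ) (j : Fin d) (s' : ℤ) :
    Set (Fin (n + 1) → (Fin d → ℤ)) :=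
  {ω | ω ∈ SAW d n ∧ (∀ k, 0 ≤ s * ω k i) ∧ ∀ k, s' * ω k j ≤ s' * ω (Fin.last n) j}

theorem TT_bd (hd : 1 ≤ d) (n : ℕ) (i : Fin d) {s : ℤ} (hs : s ^ 2 = 1) (j : Fin d) {s' : ℤ}
    (hs' : s' ^ 2 = 1) : ((TT d n i s j s').ncard : ℝ) ≤ bd d n := by
  have hlast : ∀ ω : Fin (n + 1) → (Fin d → ℤ), toN ω n = ω (Fin.last n) := by
    intro ω
    have := toN_apply ω (Fin.last n)
    simpa using this
  by_cases hij : i = j
  · subst hij
    set σ : Fin d → ℤ := fun x => if x = i then s else 1 with hσd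
    have hσ : ∀ x, σ x ^ 2 = 1 := by
      intro x
      simp only [hσd]
      split_ifs
      · exact hs
      · norm_num
    have hσi : σ i = s := by simp [hσd]
    by_cases hss : s' = s
    · subst hss
      refine le_trans ?_ (WB_bd hd i n)
      have := Set.ncard_le_ncard_of_injOn (s := TT d n i s' i s') (t := WB d i n) (flip σ) ?_
        (flip_inj hσ).injOn (WB_finite i n)
      · exact_mod_cast this
      · rintro ω ⟨h1, h2, h3⟩
        refine ⟨flip_SAW hσ h1, fun k hk => ?_⟩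
        rw [hlast, toN_of_le _ hk]
        simp only [flip, hσi]
        exact ⟨h2 _, h3 _⟩
    · have hs2 : s' = -s := by
        have e : (s' - s) * (s' + s) = 0 := by
          have : (s' - s) * (s' + s) = s' ^ 2 - s ^ 2 := by ring
          rw [this, hs, hs']; ring
        rcases mul_eq_zero.1 e with h | h
        · exact absurd (by omega) hss
        · omega
      subst hs2
      refine le_trans ?_ (AR_bd hd i n)
      have := Set.ncard_le_ncard_of_injOn (s := TT d n i s i (-s)) (t := AR d i n) (flip σ) ?_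
        (flip_inj hσ).injOn (AR_finite i n)
      · exact_mod_cast this
      · rintro ω ⟨h1, h2, h3⟩
        refine ⟨flip_SAW hσ h1, ?_, fun k hk => ?_⟩
        · rw [hlast]
          simp only [flip, hσi]
          have e1 := h3 0
          rw [h1.1] at e1
          have e2 := h2 (Fin.last n)
          simp only [Pi.zero_apply, mul_zero] at e1
          linarith
        · rw [toN_of_le _ hk]
          simp only [flip, hσi]
          exact h2 _
  · set σ : Fin d → ℤ := fun x => if x = i then s else if x = j then s' else 1 with hσd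
    have hσ : ∀ x, σ x ^ 2 = 1 := by
      intro x
      simp only [hσd]
      split_ifs
      · exact hs
      · exact hs'
      · norm_num
    have hσi : σ i = s := by simp [hσd]
    have hσj : σ j = s' := by simp [hσd, Ne.symm hij]
    refine le_trans ?_ (CO_bd hd hij n)
    have := Set.ncard_le_ncard_of_injOn (s := TT d n i s j s') (t := CO d i j n) (flip σ) ?_
      (flip_inj hσ).injOn (CO_finite i j n)
    · exact_mod_cast this
    · rintro ω ⟨h1, h2, h3⟩
      refine ⟨flip_SAW hσ h1, fun k hk => ?_, fun k hk => ?_⟩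
      · rw [toN_of_le _ hk]
        simp only [flip, hσi]
        exact h2 _
      · rw [hlast, toN_of_le _ hk]
        simp only [flip, hσj]
        exact h3 _

/-- the point `ω k` lies on the boundary of the bounding box of the walk `ω` -/
def OnBox {n : ℕ} (ω : Fin (n + 1) → (Fin d → ℤ)) (k : Fin (n + 1)) : Prop :=
  ∃ i : Fin d, (∀ l, ω k i ≤ ω l i) ∨ ∀ l, ω l i ≤ ω k i

theorem box_bound (hd : 1 ≤ d) (n : ℕ) :
    (({ω | ω ∈ SAW d n ∧ OnBox ω 0 ∧ OnBox ω (Fin.last n)} : Set _).ncard : ℝ)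
      ≤ 4 * (d : ℝ) ^ 2 * bd d n := by
  classical
  set I : Finset (Fin d × Bool × Fin d × Bool) := Finset.univ with hI
  set sg : Bool → ℤ := fun b => if b then 1 else -1 with hsg
  have hsg2 : ∀ b, sg b ^ 2 = 1 := by
    intro b
    cases b <;> simp [hsg]
  have hsub : ({ω | ω ∈ SAW d n ∧ OnBox ω 0 ∧ OnBox ω (Fin.last n)} : Set _) ⊆
      ⋃ p ∈ I, TT d n p.1 (sg p.2.1) p.2.2.1 (sg p.2.2.2) := by
    rintro ω ⟨h1, ⟨i, hi⟩, ⟨j, hj⟩⟩
    have h0 : ω 0 i = 0 := by rw [h1.1]; rfl
    have ha : ∃ b, ∀ k, 0 ≤ sg b * ω k i := by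
      rcases hi with h | h
      · exact ⟨true, fun k => by have := h k; simp [hsg]; omega⟩
      · exact ⟨false, fun k => by have := h k; simp [hsg]; omega⟩
    have hb : ∃ b, ∀ k, sg b * ω k j ≤ sg b * ω (Fin.last n) j := by
      rcases hj with h | h
      · exact ⟨false, fun k => by have := h k; simp [hsg]; omega⟩
      · exact ⟨true, fun k => by have := h k; simp [hsg]; omega⟩
    obtain ⟨a, ha⟩ := ha
    obtain ⟨b, hb⟩ := hb
    rw [Set.mem_iUnion₂]
    exact ⟨(i, a, j, b), Finset.mem_univ _, h1, ha, hb⟩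
  have hfin : (⋃ p ∈ I, TT d n p.1 (sg p.2.1) p.2.2.1 (sg p.2.2.2)).Finite :=
    (Pool.HW.SAW_finite d n).subset (by
      intro ω hω
      rw [Set.mem_iUnion₂] at hω
      obtain ⟨p, _, hp⟩ := hω
      exact hp.1)
  have h1 : (({ω | ω ∈ SAW d n ∧ OnBox ω 0 ∧ OnBox ω (Fin.last n)} : Set _).ncard : ℝ)
      ≤ ∑ p ∈ I, ((TT d n p.1 (sg p.2.1) p.2.2.1 (sg p.2.2.2)).ncard : ℝ) := by
    have e1 := Set.ncard_le_ncard hsub hfin
    have e2 := Finset.set_ncard_biUnion_le I
      (fun p => TT d n p.1 (sg p.2.1) p.2.2.1 (sg p.2.2.2))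
    exact_mod_cast e1.trans e2
  refine h1.trans ?_
  refine (Finset.sum_le_sum fun p _ => TT_bd hd n p.1 (hsg2 _) p.2.2.1 (hsg2 _)).trans ?_
  rw [Finset.sum_const, nsmul_eq_mul, hI, Finset.card_univ]
  refine le_of_eq ?_
  simp only [Fintype.card_prod, Fintype.card_fin, Fintype.card_bool]
  push_cast
  ring

end Pool.Agent.Helper75.BX
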